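import Pool.Agent.Lib.MP_90cf6f_nt.Den.Final

namespace Pool.Agent.Results.MP_90cf6f_nt.Density

open Pool.Agent.Lib.MP_90cf6f_nt

/-- Few integers `a ≤ X` have positive rank for all the twists `a Q`, `2 ≤ Q ≤ N`; in particular
few lie in the intersection of the sets `C_Q`, `2 ≤ Q ≤ N`. -/
theorem result : ∃ c C : ℝ, 0 < c ∧ ∀ N X : ℕ, 2 ≤ N → 3 ≤ X →
    (({a : ℕ | 1 ≤ a ∧ a ≤ X ∧ ∀ Q : ℕ, 2 ≤ Q → Q ≤ N →
        0 < Module.rank ℤ (curve ((a : ℚ) * (Q : ℚ))).toAffine.Point}.ncard : ℝ) ≤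
      C * (Real.exp (-c * √(Real.log N)) + Real.log X ^ (-c)) * X) ∧
    (({a : ℕ | a ≤ X ∧ ∀ Q : ℕ, 2 ≤ Q → Q ≤ N → a ∈ CQ Q}.ncard : ℝ) ≤
      C * (Real.exp (-c * √(Real.log N)) + Real.log X ^ (-c)) * X) := by
  obtain ⟨c, C, hc, h⟩ := Den.density
  refine ⟨c, C, hc, fun N X hN hX => ?_⟩
  have e : {a : ℕ | 1 ≤ a ∧ a ≤ X ∧ ∀ Q : ℕ, 2 ≤ Q → Q ≤ N →
      0 < Module.rank ℤ (curve ((a : ℚ) * (Q : ℚ))).toAffine.Point} = ↑(Den.surv N X) := by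
    ext a
    simp only [Den.surv, Set.mem_ofPred_eq, Finset.coe_filter, Finset.mem_Icc, and_assoc]
  refine ⟨by rw [e, Set.ncard_coe_finset]; exact h N X hN hX, le_trans ?_ (h N X hN hX)⟩
  rw [← Set.ncard_coe_finset, ← e]
  refine Nat.cast_le.2 (Set.ncard_le_ncard (fun a ha => ?_) (e ▸ Finset.finite_toSet _))
  refine ⟨(ha.2 2 le_rfl hN).1, ha.1, fun Q h1 h2 => ?_⟩
  have := (ha.2 Q h1 h2).2 1
  rwa [pow_one] at this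

end Pool.Agent.Results.MP_90cf6f_nt.Density
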