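import Pool.Agent.Lib.MP_90cf6f_nt.More

namespace Pool.Agent.Results.MP_90cf6f_nt.SixTwists

open Pool.Agent.Lib.MP_90cf6f_nt

/-- Six simultaneous quartic twists `a, aQ, aQ^2, aQ^3, 8a, 8aQ` of positive rank. -/
theorem result (Q : ℕ) (hQ : 2 ≤ Q) :
    {a : ℕ | a ∈ CQ Q ∧ 0 < Module.rank ℤ (curve (8 * (a : ℚ))).toAffine.Point ∧
      0 < Module.rank ℤ (curve (8 * (Q : ℚ) * a)).toAffine.Point ∧
      (∀ S : ℕ, Q = 2 * S ^ 2 → a ∈ CQ (S ^ 2)) ∧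
      ∀ p : ℕ, p.Prime → ¬p ^ 4 ∣ a}.Infinite :=
  six_main Q (by omega)

end Pool.Agent.Results.MP_90cf6f_nt.SixTwists
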