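import Pool.Agent.Lib.MP_90cf6f_nt.Eight

namespace Pool.Agent.Results.MP_90cf6f_nt.TwoThreeFour

open Pool.Agent.Lib.MP_90cf6f_nt

/-- The intersection of `C_2`, `C_3`, `C_4` has infinitely many fourth-power-free elements
(and `y ^ 2 = x ^ 3 + 12 a x` has positive rank as well). -/
theorem result :
    {a : ℕ | (∀ Q : ℕ, 2 ≤ Q → Q ≤ 4 → a ∈ CQ Q) ∧
      0 < Module.rank ℤ (curve (12 * (a : ℚ))).toAffine.Point ∧
      ∀ p : ℕ, p.Prime → ¬p ^ 4 ∣ a}.Infinite :=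
  eight_main

end Pool.Agent.Results.MP_90cf6f_nt.TwoThreeFour
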