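import Pool.Agent.Lib.MP_90cf6f_nt.Uni.Main

namespace Pool.Agent.Results.MP_90cf6f_nt.UniformTwist

open Pool.Agent.Lib.MP_90cf6f_nt

/-- For `N ≥ X ^ ε` at most `C X N ^ (ε - 4)` integers `1 ≤ a ≤ X` have positive rank for all the
twists `a Q`, `2 ≤ Q ≤ N`. -/
theorem result : ∀ ε : ℝ, 0 < ε → ∃ C : ℝ, ∀ X N : ℕ, (X : ℝ) ^ ε ≤ N →
    ({a : ℕ | 1 ≤ a ∧ a ≤ X ∧ ∀ Q : ℕ, 2 ≤ Q → Q ≤ N →
        0 < Module.rank ℤ (curve ((a : ℚ) * (Q : ℚ))).toAffine.Point}.ncard : ℝ) ≤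
      C * X * (N : ℝ) ^ (ε - 4) :=
  Uni.main

end Pool.Agent.Results.MP_90cf6f_nt.UniformTwist
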